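import Pool.Agent.Helper26.CL.St

/-! # Project CM, module C2l: the step kernel at small frequencies -/

set_option autoImplicit false

open scoped BigOperators ENNReal Topology
open Pool.LE Pool.NL Filter

namespace Pool.CN

namespace C2lM

theorem mul_sinc' (x : ℝ) : x * Real.sinc x = Real.sin x := by
  by_cases h : x = 0
  · simp [h]
  · rw [Real.sinc_of_ne_zero h]
    field_simp

theorem one_sub_cos' (t : ℝ) : 1 - Real.cos t = t ^ 2 / 2 * (Real.sinc (t / 2)) ^ 2 := by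
  have h1 : Real.cos t = 1 - 2 * (Real.sin (t / 2)) ^ 2 := by
    have h := Real.cos_two_mul (t / 2)
    have h2 := Real.sin_sq_add_cos_sq (t / 2)
    have h3 : 2 * (t / 2) = t := by ring
    rw [h3] at h
    rw [h]
    linarith
  rw [h1, ← mul_sinc' (t / 2)]
  ring

theorem tnn : Tendsto (fun n : ℕ => (n : ℝ) / ((n : ℝ) + 1)) atTop (𝓝 1) :=
  tendsto_natCast_div_add_atTop 1

theorem tz (a : ℝ) : Tendsto (fun n : ℕ => a / ((n : ℝ) + 1)) atTop (𝓝 0) := by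
  have h := (tendsto_one_div_add_atTop_nhds_zero_nat (𝕜 := ℝ)).const_mul a
  rw [mul_zero] at h
  refine h.congr fun n => ?_
  rw [mul_one_div]

theorem tcos (a : ℝ) :
    Tendsto (fun n : ℕ => (n : ℝ) ^ 2 * (1 - Real.cos (a / ((n : ℝ) + 1)))) atTop (𝓝 (a ^ 2 / 2)) := by
  have h1 : Tendsto (fun n : ℕ => a ^ 2 / 2 * ((n : ℝ) / ((n : ℝ) + 1)) ^ 2 *
      (Real.sinc (a / ((n : ℝ) + 1) / 2)) ^ 2) atTop (𝓝 (a ^ 2 / 2 * 1 ^ 2 * 1 ^ 2)) := by
    refine ((tnn.pow 2).const_mul (a ^ 2 / 2)).mul ?_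
    have h2 : Tendsto (fun n : ℕ => a / ((n : ℝ) + 1) / 2) atTop (𝓝 0) := by
      have := (tz a).div_const 2
      rwa [zero_div] at this
    have h3 := (Real.continuous_sinc.tendsto 0).comp h2
    rw [Real.sinc_zero] at h3
    exact h3.pow 2
  have h4 : a ^ 2 / 2 * 1 ^ 2 * 1 ^ 2 = a ^ 2 / 2 := by ring
  rw [h4] at h1
  refine h1.congr fun n => ?_
  rw [one_sub_cos']
  have hn : ((n : ℝ) + 1) ≠ 0 := by positivity
  field_simp

theorem bcos (a : ℝ) (n : ℕ) :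
    0 ≤ (n : ℝ) ^ 2 * (1 - Real.cos (a / ((n : ℝ) + 1))) ∧
      (n : ℝ) ^ 2 * (1 - Real.cos (a / ((n : ℝ) + 1))) ≤ a ^ 2 / 2 := by
  have h0 : 0 ≤ 1 - Real.cos (a / ((n : ℝ) + 1)) := by
    have := Real.cos_le_one (a / ((n : ℝ) + 1))
    linarith
  refine ⟨by positivity, ?_⟩
  have h1 : 1 - Real.cos (a / ((n : ℝ) + 1)) ≤ (a / ((n : ℝ) + 1)) ^ 2 / 2 := by
    have := Real.one_sub_sq_div_two_le_cos (x := a / ((n : ℝ) + 1))
    linarith
  calc (n : ℝ) ^ 2 * (1 - Real.cos (a / ((n : ℝ) + 1)))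
      ≤ (n : ℝ) ^ 2 * ((a / ((n : ℝ) + 1)) ^ 2 / 2) := by gcongr
    _ = a ^ 2 / 2 * ((n : ℝ) / ((n : ℝ) + 1)) ^ 2 := by ring
    _ ≤ a ^ 2 / 2 * 1 ^ 2 := by
        have h3 : (n : ℝ) / ((n : ℝ) + 1) ≤ 1 := by
          rw [div_le_one (by positivity)]
          linarith
        have h4 : 0 ≤ (n : ℝ) / ((n : ℝ) + 1) := by positivity
        gcongr
    _ = a ^ 2 / 2 := by ring

theorem tkap {d : ℕ} (k : Fin d → ℕ) :
    Tendsto (fun n : ℕ => (kap n k : Fin d → ℝ)) atTop (𝓝 0) := by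
  rw [tendsto_pi_nhds]
  intro i
  exact tz (Real.pi * k i)

theorem kap_sum {d : ℕ} (k : Fin d → ℕ) (n : ℕ) (x : Zd d) :
    ∑ i, kap n k i * (x i : ℝ) = (∑ i, Real.pi * k i * (x i : ℝ)) / ((n : ℝ) + 1) := by
  rw [Finset.sum_div]
  refine Finset.sum_congr rfl fun i _ => ?_
  unfold kap
  ring

theorem cs {d : ℕ} (a : Fin d → ℝ) (x : Zd d) :
    (∑ i, a i * (x i : ℝ)) ^ 2 ≤ (∑ i, a i ^ 2) * LE.sq x := by
  unfold LE.sq
  exact Finset.sum_mul_sq_le_sq_mul_sq _ _ _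

/-- the second order expansion of the transform -/
theorem tFT {d : ℕ} (f : Zd d → ℝ) (hf : SumQ f) (hsum : Summable f) (k : Fin d → ℕ) :
    Tendsto (fun n : ℕ => (n : ℝ) ^ 2 * (FT f 0 - FT f (kap n k))) atTop
      (𝓝 (∑' x : Zd d, f x * ((∑ i, Real.pi * k i * (x i : ℝ)) ^ 2 / 2))) := by
  have hs : ∀ κ : Fin d → ℝ, Summable (fun x : Zd d => f x * Real.cos (∑ i, κ i * (x i : ℝ))) := by
    intro κ
    refine Summable.of_norm_bounded hsum.abs fun x => ?_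
    rw [Real.norm_eq_abs, abs_mul]
    calc |f x| * |Real.cos (∑ i, κ i * (x i : ℝ))| ≤ |f x| * 1 :=
          mul_le_mul_of_nonneg_left (Real.abs_cos_le_one _) (abs_nonneg _)
      _ = |f x| := mul_one _
  have h1 : ∀ n : ℕ, (n : ℝ) ^ 2 * (FT f 0 - FT f (kap n k)) =
      ∑' x : Zd d, f x * ((n : ℝ) ^ 2 *
        (1 - Real.cos ((∑ i, Real.pi * k i * (x i : ℝ)) / ((n : ℝ) + 1)))) := by
    intro n
    unfold FT
    rw [← (hs 0).tsum_sub (hs (kap n k)), ← tsum_mul_left]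
    refine tsum_congr fun x => ?_
    rw [kap_sum]
    have h0 : ∑ i, (0 : Fin d → ℝ) i * (x i : ℝ) = 0 := by simp
    rw [h0, Real.cos_zero]
    ring
  rw [funext h1]
  have hb : Summable (fun x : Zd d => (∑ i, (Real.pi * (k i : ℝ)) ^ 2) * (Qw x * |f x|)) :=
    Summable.mul_left _ hf
  refine tendsto_tsum_of_dominated_convergence (𝓕 := atTop)
    (f := fun (n : ℕ) (x : Zd d) => f x * ((n : ℝ) ^ 2 *
        (1 - Real.cos ((∑ i, Real.pi * k i * (x i : ℝ)) / ((n : ℝ) + 1)))))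
    (g := fun x : Zd d => f x * ((∑ i, Real.pi * k i * (x i : ℝ)) ^ 2 / 2))
    (bound := fun x => (∑ i, (Real.pi * (k i : ℝ)) ^ 2) * (Qw x * |f x|)) hb ?_ ?_
  · intro x
    exact (tcos (∑ i, Real.pi * k i * (x i : ℝ))).const_mul (f x)
  · refine Filter.Eventually.of_forall fun n x => ?_
    obtain ⟨h2, h3⟩ := bcos (∑ i, Real.pi * k i * (x i : ℝ)) n
    rw [Real.norm_eq_abs, abs_mul, abs_of_nonneg h2]
    have h4 := cs (fun i => Real.pi * (k i : ℝ)) x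
    have h5 : (0 : ℝ) ≤ ∑ i, (Real.pi * (k i : ℝ)) ^ 2 := Finset.sum_nonneg fun i _ => sq_nonneg _
    have h6 : 0 ≤ LE.sq x := by
      unfold LE.sq
      exact Finset.sum_nonneg fun i _ => sq_nonneg _
    have h7 : LE.sq x ≤ Qw x := by
      unfold Qw
      linarith
    have h8 : (n : ℝ) ^ 2 * (1 - Real.cos ((∑ i, Real.pi * k i * (x i : ℝ)) / ((n : ℝ) + 1))) ≤
        (∑ i, (Real.pi * (k i : ℝ)) ^ 2) * Qw x := by
      have h9 := sq_nonneg (∑ i, Real.pi * k i * (x i : ℝ))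
      have h10 := mul_le_mul_of_nonneg_left h7 h5
      linarith
    calc |f x| * ((n : ℝ) ^ 2 *
          (1 - Real.cos ((∑ i, Real.pi * k i * (x i : ℝ)) / ((n : ℝ) + 1))))
        ≤ |f x| * ((∑ i, (Real.pi * (k i : ℝ)) ^ 2) * Qw x) :=
          mul_le_mul_of_nonneg_left h8 (abs_nonneg _)
      _ = _ := by ring

theorem tDh {d : ℕ} (k : Fin d → ℕ) (hd : 0 < d) :
    Tendsto (fun n : ℕ => (n : ℝ) ^ 2 * (1 - Dh (kap n k))) atTop
      (𝓝 (Real.pi ^ 2 * (∑ i, (k i : ℝ) ^ 2) / (2 * d))) := by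
  have hd' : (d : ℝ) ≠ 0 := by exact_mod_cast hd.ne'
  have h1 : ∀ n : ℕ, (n : ℝ) ^ 2 * (1 - Dh (kap n k)) =
      (∑ i : Fin d, (n : ℝ) ^ 2 * (1 - Real.cos (Real.pi * k i / ((n : ℝ) + 1)))) / d := by
    intro n
    unfold Dh kap
    rw [← Finset.mul_sum, Finset.sum_sub_distrib]
    simp only [Finset.sum_const, Finset.card_univ, Fintype.card_fin, nsmul_eq_mul, mul_one]
    field_simp
  rw [funext h1]
  have h2 : Real.pi ^ 2 * (∑ i, (k i : ℝ) ^ 2) / (2 * d) =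
      (∑ i : Fin d, (Real.pi * (k i : ℝ)) ^ 2 / 2) / d := by
    have h3 : ∀ i : Fin d, (Real.pi * (k i : ℝ)) ^ 2 / 2 = Real.pi ^ 2 / 2 * (k i : ℝ) ^ 2 :=
      fun i => by ring
    rw [Finset.sum_congr rfl fun i _ => h3 i, ← Finset.mul_sum]
    field_simp
  rw [h2]
  exact (tendsto_finsetSum _ fun i _ => tcos _).div_const _

theorem tDh1 {d : ℕ} (k : Fin d → ℕ) (hd : 0 < d) :
    Tendsto (fun n : ℕ => Dh (kap n k)) atTop (𝓝 1) := by
  have hd' : (d : ℝ) ≠ 0 := by exact_mod_cast hd.ne'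
  have hc : Continuous (fun κ : Fin d → ℝ => Dh κ) := by
    unfold Dh
    fun_prop
  have h := (hc.tendsto 0).comp (tkap k)
  have h1 : Dh (0 : Fin d → ℝ) = 1 := by
    unfold Dh
    simp [hd']
  rw [h1] at h
  exact h

end C2lM

open C2lM in
theorem hC2l (hB8 : StB8) (hCvA : StCvA) (hFTb : StFTb) (hIso : StIso) : StC2l := by
  obtain ⟨d₁, hd₁, hB⟩ := hB8
  refine ⟨d₁, by omega, fun d hd => ?_⟩
  obtain ⟨hp, -, -, heta, hone⟩ := hB d hd
  have hd0 : 0 < d := by omega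
  have hdR : (0 : ℝ) < d := by exact_mod_cast hd0
  have hne : eta d (pH d) ≠ ⊤ := ne_top_of_le_ne_top ENNReal.ofReal_ne_top heta
  obtain ⟨-, hSh, hnQ, -, hdl, hSg, hsym⟩ := hCvA d (pH d) hne
  have hnQ' : nQ (hS d (pH d)) ≤ 1 / 200 := by
    refine hnQ.trans ?_
    have := ENNReal.toReal_mono ENNReal.ofReal_ne_top heta
    rwa [ENNReal.toReal_ofReal (by norm_num)] at this
  set g := gS d (pH d) with hg
  set h := hS d (pH d) with hh'
  obtain ⟨hsg, hsqg, -, -, -, -, hcont, -⟩ := hFTb d g hSg 0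
  obtain ⟨hsh, hsqh, -, -, -, -, -, -⟩ := hFTb d h hSh 0
  have hF0 : 0 < FT g 0 := by
    by_contra hcon
    push Not at hcon
    have : 2 * (d : ℝ) * pH d * FT g 0 ≤ 0 :=
      mul_nonpos_of_nonneg_of_nonpos (by positivity) hcon
    linarith
  -- FT g 0 + Σ sq g > 0
  have hFT0 : ∀ f : Zd d → ℝ, FT f 0 = ∑' x, f x := by
    intro f
    unfold FT
    refine tsum_congr fun x => ?_
    have h0 : ∑ i, (0 : Fin d → ℝ) i * (x i : ℝ) = 0 := by simp
    rw [h0, Real.cos_zero, mul_one]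
  have hgx : ∀ x, g x = h x + if x = 0 then 1 else 0 := fun x => by
    rw [hdl]
    rfl
  have hsum1 : ∑' x, g x = ∑' x, h x + 1 := by
    have hs0 : HasSum (fun x : Zd d => if x = 0 then (1 : ℝ) else 0) 1 := by
      have := hasSum_ite_eq (0 : Zd d) (1 : ℝ)
      exact this
    rw [tsum_congr hgx, hsh.tsum_add hs0.summable, hs0.tsum_eq]
  have hsum2 : ∑' x, LE.sq x * g x = ∑' x, LE.sq x * h x := by
    refine tsum_congr fun x => ?_
    rw [hgx]
    by_cases hx : x = 0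
    · have h0 : LE.sq x = 0 := by
        rw [hx]
        unfold LE.sq
        simp
      rw [h0]
      ring
    · simp [hx]
  have hsqn : ∀ x : Zd d, 0 ≤ LE.sq x := fun x => by
    unfold LE.sq
    exact Finset.sum_nonneg fun i _ => sq_nonneg _
  have hpos : 0 < FT g 0 + ∑' x, LE.sq x * g x := by
    rw [hFT0, hsum1, hsum2]
    have h1 : |∑' x, h x + ∑' x, LE.sq x * h x| ≤ nQ h := by
      rw [← hsh.tsum_add hsqh]
      have hb : ∀ x : Zd d, |h x + LE.sq x * h x| ≤ Qw x * |h x| := by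
        intro x
        have h2 : h x + LE.sq x * h x = (1 + LE.sq x) * h x := by ring
        have h3 := hsqn x
        rw [h2, abs_mul, abs_of_nonneg (by linarith)]
        refine mul_le_mul_of_nonneg_right ?_ (abs_nonneg _)
        unfold Qw
        linarith
      have hsa : Summable (fun x : Zd d => |h x + LE.sq x * h x|) :=
        Summable.of_nonneg_of_le (fun x => abs_nonneg _) hb hSh
      have h3 : |∑' x : Zd d, (h x + LE.sq x * h x)| ≤ ∑' x : Zd d, |h x + LE.sq x * h x| :=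
        norm_tsum_le_tsum_norm (f := fun x : Zd d => h x + LE.sq x * h x) hsa
      exact h3.trans (hsa.tsum_le_tsum hb hSh)
    have h2 := abs_le.1 h1
    linarith [h2.1]
  refine ⟨hF0, hsg, hsym, Real.pi ^ 2 * pH d * (FT g 0 + ∑' x, LE.sq x * g x) / FT g 0, ?_, ?_⟩
  · have := Real.pi_pos
    positivity
  · intro k _
    have t2 : Tendsto (fun n : ℕ => FT g (kap n k)) atTop (𝓝 (FT g 0)) :=
      (hcont.tendsto 0).comp (tkap k)
    refine ⟨?_, t2⟩
    have t1 := tFT g hSg hsg k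
    have hiso : ∑' x : Zd d, g x * ((∑ i, Real.pi * k i * (x i : ℝ)) ^ 2 / 2) =
        Real.pi ^ 2 * (∑ i, (k i : ℝ) ^ 2) / (2 * d) * ∑' x, LE.sq x * g x := by
      obtain ⟨-, h2⟩ := hIso d g hd0 hSg hsym (fun i => Real.pi * (k i : ℝ))
      have h3 : ∀ x : Zd d, g x * ((∑ i, Real.pi * k i * (x i : ℝ)) ^ 2 / 2) =
          g x * (∑ i, Real.pi * (k i : ℝ) * (x i : ℝ)) ^ 2 * (1 / 2) := fun x => by ring
      rw [tsum_congr h3, tsum_mul_right, h2]
      have h4 : ∀ i : Fin d, (Real.pi * (k i : ℝ)) ^ 2 = Real.pi ^ 2 * (k i : ℝ) ^ 2 :=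
        fun i => by ring
      rw [Finset.sum_congr rfl fun i _ => h4 i, ← Finset.mul_sum]
      field_simp
    rw [hiso] at t1
    have t3 := tDh k hd0
    have t4 := tDh1 k hd0
    have t5 : Tendsto (fun n : ℕ => 2 * d * pH d * ((n : ℝ) ^ 2 * (1 - Dh (kap n k)) * FT g 0 +
        Dh (kap n k) * ((n : ℝ) ^ 2 * (FT g 0 - FT g (kap n k))))) atTop
        (𝓝 (2 * d * pH d * (Real.pi ^ 2 * (∑ i, (k i : ℝ) ^ 2) / (2 * d) * FT g 0 +
          1 * (Real.pi ^ 2 * (∑ i, (k i : ℝ) ^ 2) / (2 * d) * ∑' x, LE.sq x * g x)))) :=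
      ((t3.mul_const _).add (t4.mul t1)).const_mul _
    have e1 : 2 * d * pH d * (Real.pi ^ 2 * (∑ i, (k i : ℝ) ^ 2) / (2 * d) * FT g 0 +
          1 * (Real.pi ^ 2 * (∑ i, (k i : ℝ) ^ 2) / (2 * d) * ∑' x, LE.sq x * g x)) =
        Real.pi ^ 2 * pH d * (FT g 0 + ∑' x, LE.sq x * g x) / FT g 0 * (∑ i, (k i : ℝ) ^ 2) *
          FT g 0 := by
      have hF0' := hF0.ne'
      field_simp
    rw [e1] at t5
    refine t5.congr fun n => ?_
    calc 2 * d * pH d * ((n : ℝ) ^ 2 * (1 - Dh (kap n k)) * FT g 0 +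
        Dh (kap n k) * ((n : ℝ) ^ 2 * (FT g 0 - FT g (kap n k))))
        = (n : ℝ) ^ 2 * (2 * (d : ℝ) * pH d * FT g 0 -
          2 * d * pH d * Dh (kap n k) * FT g (kap n k)) := by ring
      _ = _ := by rw [hone]

end Pool.CN
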